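import Mathlib

namespace Pool.Agent.Results.MP_64d5df_nt.Q2

/-- distance to the nearest integer -/
noncomputable def nd (x : ℝ) : ℝ := |x - round x|

/-- the loneliness gap: the supremum over `t` of the least `nd (t * v)`, `v ∈ V` -/
noncomputable def kappa (V : Finset ℕ) : ℝ := ⨆ t : ℝ, ⨅ v : V, nd (t * (v : ℕ))

lemma nd_le (x : ℝ) (k : ℤ) : nd x ≤ |x - k| := round_le x k

lemma nd_ge (x c : ℝ) (k : ℤ) (h1 : k + c ≤ x) (h2 : x ≤ k + 1 - c) : c ≤ nd x := by
  unfold nd
  rcases le_or_gt (round x) k with h | h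
  · have : (round x : ℝ) ≤ k := by exact_mod_cast h
    exact le_trans (by linarith) (le_abs_self _)
  · have : (k : ℝ) + 1 ≤ round x := by exact_mod_cast h
    exact le_trans (by linarith) (neg_le_abs _)

lemma inf_le (V : Finset ℕ) (t : ℝ) {v : ℕ} (hv : v ∈ V) :
    ⨅ v : V, nd (t * (v : ℕ)) ≤ nd (t * v) :=
  ciInf_le (Finite.bddBelow_range _) (⟨v, hv⟩ : V)

lemma kappa_le (V : Finset ℕ) (c : ℝ) (h : ∀ t : ℝ, ∃ v ∈ V, nd (t * v) ≤ c) : kappa V ≤ c :=
  ciSup_le fun t => by
    obtain ⟨v, hv, h⟩ := h t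
    exact (inf_le V t hv).trans h

lemma le_kappa (V : Finset ℕ) (hV : V.Nonempty) (c t : ℝ) (h : ∀ v ∈ V, c ≤ nd (t * v)) :
    c ≤ kappa V := by
  obtain ⟨w, hw⟩ := hV
  have : Nonempty V := ⟨⟨w, hw⟩⟩
  refine le_ciSup_of_le ⟨1 / 2, ?_⟩ t (le_ciInf fun v => h v v.2)
  rintro _ ⟨s, rfl⟩
  exact (inf_le V s hw).trans (abs_sub_round _)

lemma near (t c : ℝ) (v : ℕ) (k : ℤ) (h1 : Int.fract t * v - k ≤ c) (h2 : k - Int.fract t * v ≤ c) :
    nd (t * v) ≤ c := by
  refine (nd_le _ (⌊t⌋ * v + k)).trans (abs_le.mpr ?_)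
  have := Int.floor_add_fract t
  have h3 : t * v = ⌊t⌋ * v + Int.fract t * v := by rw [← add_mul, this]
  push_cast
  constructor <;> linarith

theorem result :
    (∀ n : ℕ, 2 ≤ n → ∃ V : Finset ℕ, V.card = n ∧ (∀ v ∈ V, 0 < v) ∧
      ∃ a : ℕ, 0 < a ∧ kappa (V.image (a + ·)) < kappa V) ∧
    kappa (({1, 2, 4} : Finset ℕ).image (1 + ·)) < kappa {1, 2, 4} := by
  constructor
  · intro n hn
    refine ⟨(Finset.range n).image (2 * · + 1), ?_, ?_, 1, one_pos, ?_⟩
    · rw [Finset.card_image_of_injective _ (fun a b h => by simpa using h), Finset.card_range]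
    · intro v hv
      obtain ⟨k, -, rfl⟩ := Finset.mem_image.mp hv
      omega
    · have h1 : 1 / 2 ≤ kappa ((Finset.range n).image (2 * · + 1)) := by
        refine le_kappa _ ⟨1, Finset.mem_image.mpr ⟨0, by simp; omega, rfl⟩⟩ _ (1 / 2) ?_
        intro v hv
        obtain ⟨k, -, rfl⟩ := Finset.mem_image.mp hv
        refine nd_ge _ _ k ?_ ?_ <;> push_cast <;> linarith
      have m2 : 2 ∈ ((Finset.range n).image (2 * · + 1)).image (1 + ·) :=
        Finset.mem_image.mpr ⟨1, Finset.mem_image.mpr ⟨0, by simp; omega, rfl⟩, rfl⟩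
      have m4 : 4 ∈ ((Finset.range n).image (2 * · + 1)).image (1 + ·) :=
        Finset.mem_image.mpr ⟨3, Finset.mem_image.mpr ⟨1, by simp; omega, rfl⟩, rfl⟩
      have h2 : kappa (((Finset.range n).image (2 * · + 1)).image (1 + ·)) ≤ 1 / 3 := by
        refine kappa_le _ _ fun t => ?_
        have a0 := Int.fract_nonneg t
        have a1 := Int.fract_lt_one t
        by_cases b1 : Int.fract t ≤ 1 / 6
        · exact ⟨2, m2, near t _ 2 0 (by push_cast; linarith) (by push_cast; linarith)⟩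
        by_cases b2 : Int.fract t ≤ 1 / 3
        · exact ⟨4, m4, near t _ 4 1 (by push_cast; linarith) (by push_cast; linarith)⟩
        by_cases b3 : Int.fract t ≤ 2 / 3
        · exact ⟨2, m2, near t _ 2 1 (by push_cast; linarith) (by push_cast; linarith)⟩
        by_cases b4 : Int.fract t ≤ 5 / 6
        · exact ⟨4, m4, near t _ 4 3 (by push_cast; linarith) (by push_cast; linarith)⟩
        · exact ⟨2, m2, near t _ 2 2 (by push_cast; linarith) (by push_cast; linarith)⟩
      linarith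
  · have h1 : 1 / 3 ≤ kappa {1, 2, 4} := by
      refine le_kappa _ ⟨1, by simp⟩ _ (1 / 3) ?_
      intro v hv
      simp only [Finset.mem_insert, Finset.mem_singleton] at hv
      rcases hv with rfl | rfl | rfl
      · refine nd_ge _ _ 0 ?_ ?_ <;> norm_num
      · refine nd_ge _ _ 0 ?_ ?_ <;> norm_num
      · refine nd_ge _ _ 1 ?_ ?_ <;> norm_num
    have h2 : kappa (({1, 2, 4} : Finset ℕ).image (1 + ·)) ≤ 2 / 7 := by
      refine kappa_le _ _ fun t => ?_
      have a0 := Int.fract_nonneg t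
      have a1 := Int.fract_lt_one t
      by_cases b1 : Int.fract t ≤ 1 / 7
      · exact ⟨2, by decide, near t _ 2 0 (by push_cast; linarith) (by push_cast; linarith)⟩
      by_cases b2 : Int.fract t ≤ 1 / 4
      · exact ⟨5, by decide, near t _ 5 1 (by push_cast; linarith) (by push_cast; linarith)⟩
      by_cases b3 : Int.fract t ≤ 2 / 5
      · exact ⟨3, by decide, near t _ 3 1 (by push_cast; linarith) (by push_cast; linarith)⟩
      by_cases b4 : Int.fract t ≤ 3 / 5
      · exact ⟨2, by decide, near t _ 2 1 (by push_cast; linarith) (by push_cast; linarith)⟩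
      by_cases b5 : Int.fract t ≤ 3 / 4
      · exact ⟨3, by decide, near t _ 3 2 (by push_cast; linarith) (by push_cast; linarith)⟩
      by_cases b6 : Int.fract t ≤ 6 / 7
      · exact ⟨5, by decide, near t _ 5 4 (by push_cast; linarith) (by push_cast; linarith)⟩
      · exact ⟨2, by decide, near t _ 2 2 (by push_cast; linarith) (by push_cast; linarith)⟩
    linarith

end Pool.Agent.Results.MP_64d5df_nt.Q2
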